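import Pool.Agent.T63.SU.Base
import Pool.Agent.N375.AV.D

/-!
# Serre uniformity for all elliptic curves with invariant of height near values of additive functions

Let `F = f_1 ∘ ⋯ ∘ f_k` be a composition of functions dominated by the largest prime factor (`PD`), for
example additive functions `f` with `f (q^j) ≤ C q^j` at the prime powers, with different values at
different large primes (the sum of the prime factors), the largest prime factor itself, and Kempner's
function. Let `G` have steps bounded below by a positive constant and growth at most `v ^ e`, for example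
`G v = v`, and `κ ≥ 0`. For every `ε > 0` there is `c > 0` such that for every `N ≥ 5` with
`e (5 / N + ε) + κ < 1`: for all `m ≤ M` but `K M exp (- b (log M)^(1 / (k + 1)))`, for ALL rational numbers
`j` of height `H(j)` with `|H(j) - G (F m)| ≤ F(m) ^ κ`, ALL elliptic curves `E` over `ℚ` with invariant `j`
and ALL primes `p` with `N ≤ p ≤ exp (c √(log H(j)))` the image of the Galois group in `Aut(E[p])` contains
`SL₂(𝔽_p)`. The values of `F` are taken with very large multiplicities and `F(m)` is in general much
smaller than `m`; and so this does not follow from the number of the exceptional `j`.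

Proof: the starting library `N375/AV` (preimages of thin sets under functions dominated by the largest
prime factor) and the starting theorem `MP_cda23d_nt.ExplicitWithoutSL` (the number of exceptional `j`).
-/

set_option autoImplicit false

namespace Pool.Agent.Results.MP_cda23d_nt.AdditiveInvariants

open Pool.Agent.T63.SU
open Pool.Agent.N733.TG (Expanding expanding_pow)
open Pool.Agent.N375.AV (PD comp good pd_additive pd_largest pd_kempner)

/-- **Uniformity for the curves with invariant of height near the values of compositions of additive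
functions.** For every `ε > 0` there is `c > 0` such that for all `N ≥ 5`, compositions `F = comp fs` of
functions dominated by the largest prime factor, `G` with steps `≥ a > 0` and growth at most `v ^ e`,
`κ ≥ 0` with `e (5 / N + ε) + κ < 1`: for all `m ≤ M` but `K M exp (- b (log M)^(1 / (k + 1)))`, for ALL
rational numbers `j` of height `H(j)` with `|H(j) - G (F m)| ≤ F(m) ^ κ`, ALL elliptic curves over `ℚ` with
invariant `j` and ALL primes `p` with `N ≤ p ≤ exp (c √(log H(j)))` the image of the Galois group in the
automorphisms of the `p`-torsion contains `SL₂(𝔽_p)` (`Uniform N c j`). The additive functions with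
`f (q^j) ≤ C q^j` which are injective at the large primes, the largest prime factor and Kempner's function
are examples of such functions, and `α v ^ e` with `α > 0`, `e ≥ 1` is an example of `G`. -/
theorem result :
    ∀ ε : ℝ, 0 < ε → ∃ c : ℝ, 0 < c ∧ ∀ N : ℕ, 5 ≤ N →
      ∀ fs : List (ℕ → ℕ), (∀ f ∈ fs, PD f) →
      ∀ (G : ℕ → ℝ) (e : ℝ), Expanding G e → ∀ κ : ℝ, 0 ≤ κ → e * (5 / (N : ℝ) + ε) + κ < 1 →
      ∃ b K : ℝ, 0 < b ∧ ∀ M : ℕ, 1 ≤ M →
      ({m : ℕ | 1 ≤ m ∧ m ≤ M ∧ ¬ ∀ j : ℚ, |(ht j : ℝ) - G (comp fs m)| ≤ (comp fs m : ℝ) ^ κ →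
          Uniform N c j}.ncard : ℝ) ≤
        K * M * Real.exp (-(b * Real.log M ^ ((1 : ℝ) / (fs.length + 1)))) := by
  intro ε hε
  obtain ⟨c, hc, hp⟩ := count ε hε
  refine ⟨c, hc, fun N hN fs hfs G e hG κ hκ h1 => ?_⟩
  have hs : 0 ≤ 5 / (N : ℝ) + ε := by positivity
  obtain ⟨b, K, hb, hbK⟩ := good (fun _ : ℚ => True) (fun j : ℚ => Uniform N c j)
    (fun j : ℚ => (ht j : ℝ)) fs hfs hG (s := 5 / (N : ℝ) + ε) (κ := κ) hs hκ h1 (countε (hp N hN))
  refine ⟨b, K, hb, fun M hM => le_trans (le_of_eq ?_) (hbK M hM)⟩
  congr 2
  ext m
  simp

end Pool.Agent.Results.MP_cda23d_nt.AdditiveInvariants
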