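import Pool.Agent.T63.SU.Base
import Pool.Agent.N790.CM.C

/-!
# Serre uniformity for all elliptic curves with invariant of height near all multiples of Carmichael's function of almost all integers

Let `G` have steps bounded below by a positive constant and growth at most `v ^ e`, for example `G v = v`,
`κ ≥ 0` and `B ≥ 1`. For every `ε > 0` there is `c > 0` such that for every `N ≥ 5` with
`B (e (5 / N + ε) + κ) < 1`: for all `u ≤ M` but `M / (log M) ^ A` and ALL multiples `w ≤ M ^ B` of
Carmichael's function `λ(u)` (for example Euler's function `φ(u)`), for ALL rational numbers `j` of height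
`H(j)` with `|H(j) - G(w)| ≤ w ^ κ`, ALL elliptic curves `E` over `ℚ` with invariant `j` and ALL primes `p`
with `N ≤ p ≤ exp (c √(log H(j)))` the image of the Galois group in `Aut(E[p])` contains `SL₂(𝔽_p)`. The same
is true for the common multiples `w` of the numbers `F p`, `p` the large primes which divide `u` exactly
once, if `F` takes each positive value at boundedly many primes, for example `F p = |P(p)|` for a
nonconstant polynomial `P`. Some `w` are multiples of `λ(u)` for more than `M ^ (1 - δ)` of the `u ≤ M`, so
that this does not follow from the number of the exceptional `j`.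

Proof: the starting library `N790/CM` and the starting theorem `MP_cda23d_nt.ExplicitWithoutSL` (the number
of exceptional `j`).
-/

set_option autoImplicit false

namespace Pool.Agent.Results.MP_cda23d_nt.CarmichaelMultiples

open Pool.Agent.T63.SU
open Pool.Agent.N733.TG (Expanding expanding_pow)
open Pool.Agent.N790.CM (FewTimes Carries OnMultiples OnCarmichael fewTimes_pred fewTimes_poly
  keep_good)

/-- **Uniformity for the curves with invariant of height near all multiples of Carmichael's function of
almost all integers.** For every `ε > 0` there is `c > 0` such that for all `N ≥ 5`, `G` with steps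
`≥ a > 0` and growth at most `v ^ e`, `κ ≥ 0`, `B ≥ 1` with `B (e (5 / N + ε) + κ) < 1`: for all `u ≤ M` but
`M / (log M) ^ A` and ALL multiples `w ≤ M ^ B` of `λ(u)`, and also for all common multiples `w ≤ M ^ B` of the
numbers `F p`, `p > exp (√(log M))` a prime which divides `u` exactly once, `F` any function which takes
each positive value at boundedly many primes, for ALL rational numbers `j` of height `H(j)` with
`|H(j) - G w| ≤ w ^ κ`, ALL elliptic curves over `ℚ` with invariant `j` and ALL primes `p` with
`N ≤ p ≤ exp (c √(log H(j)))` the image of the Galois group in the automorphisms of the `p`-torsion contains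
`SL₂(𝔽_p)` (`Uniform N c j`). Examples of `F` are `p - 1` and `|P(p)|`, `P` a nonconstant polynomial, and
`α v ^ e` with `α > 0`, `e ≥ 1` is an example of `G`. -/
theorem result :
    ∀ ε : ℝ, 0 < ε → ∃ c : ℝ, 0 < c ∧ ∀ N : ℕ, 5 ≤ N →
      ∀ (G : ℕ → ℝ) (e : ℝ), Expanding G e → ∀ κ B : ℝ, 0 ≤ κ → 1 ≤ B →
      B * (e * (5 / (N : ℝ) + ε) + κ) < 1 →
      OnMultiples B (fun w => ∀ j : ℚ, |(ht j : ℝ) - G w| ≤ (w : ℝ) ^ κ → Uniform N c j) := by
  intro ε hε
  obtain ⟨c, hc, hp⟩ := count ε hε
  refine ⟨c, hc, fun N hN G e hG κ B hκ hB h1 => ?_⟩
  have hs : 0 ≤ 5 / (N : ℝ) + ε := by positivity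
  have key : OnMultiples B (fun w => ∀ j : ℚ, |(ht j : ℝ) - G w| ≤ (w : ℝ) ^ κ → Uniform N c j) :=
    (keep_good (fun _ : ℚ => True) (fun j : ℚ => Uniform N c j)
      (fun j : ℚ => (ht j : ℝ)) hG (s := 5 / (N : ℝ) + ε) (κ := κ) (B := B) hs hκ hB h1
      (countε (hp N hN))).mono fun w _ hw j hj => hw j trivial hj
  exact key

end Pool.Agent.Results.MP_cda23d_nt.CarmichaelMultiples
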