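import Pool.Agent.T63.SU.Base
import Pool.Agent.N671.DA.Win

/-!
# Serre uniformity for all elliptic curves with invariant of height near functions of the denominators of good approximations

Let `α_1, …, α_m` be real numbers. We consider the natural numbers `q` with `‖q α_i - β_i‖ ≤ r q^(-τ)` for
all `i`, `‖x‖` the distance to the nearest integer; for `β = 0`, `r = 1`, `τ = 1 / m` these include the
denominators of all best simultaneous approximations (the denominators of the convergents for `m = 1`).
For every `ε > 0` there is `c > 0` such that for every `N ≥ 5`, `0 ≤ κ ≤ 1` and `G` with steps bounded below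
by a positive constant and growth at most `v ^ e`, for example `a v^e`: for all `α` in `ℝ^m` outside a set
of Hausdorff dimension at most `(m + e (5 / N + ε) + κ) / (1 + τ)`, and all `r`, for all but finitely many
such `q`, ALL rational numbers `j` of height `H(j)` with `|H(j) - G q| ≤ q ^ κ`, ALL elliptic curves `E` over
`ℚ` with invariant `j` and ALL primes `p` with `N ≤ p ≤ exp (c √(log H(j)))`, the image of the Galois group
in `Aut(E[p])` contains `SL₂(𝔽_p)`. For `τ = 1 / m` the bound is less than `m` if `e (5 / N + ε) + κ < 1`;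
and so the statement holds for almost all `α`.

Proof: the starting library `N671/DA` and the starting theorem `MP_cda23d_nt.ExplicitWithoutSL` (the number
of exceptional `j`).
-/

set_option autoImplicit false

namespace Pool.Agent.Results.MP_cda23d_nt.SimultaneousApproximations

open Pool.Agent.T63.SU
open Pool.Agent.N671.DA (Solves Expanding expanding_pow approx_good)

/-- **Uniformity for the curves with invariant of height near the denominators of good approximations.** For
every `ε > 0` there is `c > 0` such that for all `N ≥ 5`, `G` with steps `≥ a > 0` and growth at most `v ^ e`,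
`0 ≤ κ ≤ 1`, `β` in `ℝ^m` and `τ > 0`: for all `α` in `ℝ^m` outside a set of Hausdorff dimension at most
`(m + e (5 / N + ε) + κ) / (1 + τ)` and all `r`, for all large `q` with `‖q α_i - β_i‖ ≤ r q^(-τ)` for all
`i`, for ALL rational numbers `j` of height `H(j)` with `|H(j) - G q| ≤ q ^ κ`, ALL elliptic curves over `ℚ`
with invariant `j` and ALL primes `p` with `N ≤ p ≤ exp (c √(log H(j)))` the image of the Galois group in the
automorphisms of the `p`-torsion contains `SL₂(𝔽_p)` (`Uniform N c j`). The functions `a v^e` with `a > 0`,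
`e ≥ 1` are examples of `G`. -/
theorem result :
    ∀ ε : ℝ, 0 < ε → ∃ c : ℝ, 0 < c ∧ ∀ N : ℕ, 5 ≤ N →
      ∀ (G : ℕ → ℝ) (e : ℝ), Expanding G e → ∀ κ : ℝ, 0 ≤ κ → κ ≤ 1 →
      ∀ (m : ℕ) (β : Fin m → ℝ) (τ : ℝ), 0 < τ →
      ∃ E : Set (Fin m → ℝ),
        dimH E ≤ ENNReal.ofReal ((m + (e * (5 / (N : ℝ) + ε) + κ)) / (1 + τ)) ∧
        ∀ α, α ∉ E → ∀ r : ℝ, ∃ Q : ℕ, ∀ q : ℕ, Q ≤ q → Solves α β q (r * (q : ℝ) ^ (-τ)) →
          ∀ j : ℚ, |(ht j : ℝ) - G q| ≤ (q : ℝ) ^ κ → Uniform N c j := by
  intro ε hε
  obtain ⟨c, hc, hp⟩ := count ε hε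
  refine ⟨c, hc, fun N hN G e hG κ hκ hκ1 m β τ hτ => ?_⟩
  have hs : 0 ≤ 5 / (N : ℝ) + ε := by positivity
  obtain ⟨E, hE, hE2⟩ := approx_good (fun _ : ℚ => True) (fun j : ℚ => Uniform N c j)
    (fun j : ℚ => (ht j : ℝ)) hG (s := 5 / (N : ℝ) + ε) (κ := κ) hs hκ hκ1 (countε (hp N hN)) β hτ
  refine ⟨E, hE, fun α hα r => ?_⟩
  obtain ⟨Q, hQ⟩ := hE2 α hα r
  exact ⟨Q, fun q hq h1 j h2 => hQ q hq h1 j trivial h2⟩

end Pool.Agent.Results.MP_cda23d_nt.SimultaneousApproximations
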