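import Pool.Agent.T63.SU.Base
import Pool.Agent.N760.IT.D

/-!
# Serre uniformity for all elliptic curves with invariant of height near the members of almost all orbits of Euler's function

Let `φ_k` be the `k`-th iterate of Euler's function, `φ_0(m) = m`. Let `f` be a positive multiplicative
function of at most polynomial growth such that `f p ≤ M p` for the large primes `p`, with different values
at different large primes; for example the identity, Euler's function or the sum of the divisors. Let `G`
have steps bounded below by a positive constant and growth at most `v ^ e`, for example `G v = v`, and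
`κ ≥ 0`. For every `ε > 0` there is `c > 0` such that for every `N ≥ 5` with `e (5 / N + ε) + κ < 1` there is
`K(m)` tending to infinity such that for almost all `m`, for all `k ≤ K(m)`, with `v = f(φ_k(m))`, for ALL
rational numbers `j` of height `H(j)` with `|H(j) - G v| ≤ v ^ κ`, ALL elliptic curves `E` over `ℚ` with
invariant `j` and ALL primes `p` with `N ≤ p ≤ exp (c √(log H(j)))` the image of the Galois group in
`Aut(E[p])` contains `SL₂(𝔽_p)`. The values of `f` are in general taken with very large multiplicities, and
so this does not follow from the number of the exceptional `j`.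

Proof: the starting library `N760/IT` and the starting theorem `MP_cda23d_nt.ExplicitWithoutSL` (the number
of exceptional `j`).
-/

set_option autoImplicit false

namespace Pool.Agent.Results.MP_cda23d_nt.TotientOrbits

open Filter
open Pool.Agent.T63.SU
open Pool.Agent.N733.TG (LM Expanding lm_totient lm_sigma expanding_pow)
open Pool.Agent.N760.IT (orb lm_id orbit_windows')
open Pool.Agent.N826.IT.Orb (AlmostAll)

/-- **Uniformity for the curves with invariant of height near the orbits of Euler's function.** For every
`ε > 0` there is `c > 0` with the following property. Let `N ≥ 5`, let `f` be multiplicative and positive, of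
at most polynomial growth, with `f p ≤ M p` at the large primes, and injective there; let `G` have steps
`≥ a > 0` and growth at most `v ^ e`, `κ ≥ 0` and `e (5 / N + ε) + κ < 1`. Then there is `K(m)` tending to
infinity such that for almost all `m`, for all `k ≤ K(m)`, with `v = f(φ_k(m))` (`orb f k m`), for ALL
rational numbers `j` of height `H(j)` with `|H(j) - G v| ≤ v ^ κ`, ALL elliptic curves over `ℚ` with
invariant `j` and ALL primes `p` with `N ≤ p ≤ exp (c √(log H(j)))` the image of the Galois group in the
automorphisms of the `p`-torsion contains `SL₂(𝔽_p)` (`Uniform N c j`). The identity, Euler's function and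
the sum of the divisors are examples of such functions `f`, and `α v ^ e` with `α > 0`, `e ≥ 1` is an example
of `G`. -/
theorem result :
    ∀ ε : ℝ, 0 < ε → ∃ c : ℝ, 0 < c ∧ ∀ N : ℕ, 5 ≤ N →
      ∀ f : ℕ → ℕ, LM f → ∀ (G : ℕ → ℝ) (e : ℝ), Expanding G e → ∀ κ : ℝ, 0 ≤ κ →
      e * (5 / (N : ℝ) + ε) + κ < 1 →
      ∃ K : ℕ → ℕ, Tendsto K atTop atTop ∧
        AlmostAll (fun m => ∀ k ≤ K m, ∀ j : ℚ,
          |(ht j : ℝ) - G (orb f k m)| ≤ (orb f k m : ℝ) ^ κ → Uniform N c j) := by
  intro ε hε
  obtain ⟨c, hc, hp⟩ := count ε hε
  refine ⟨c, hc, fun N hN f hf G e hG κ hκ h1 => ?_⟩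
  have hs : 0 ≤ 5 / (N : ℝ) + ε := by positivity
  obtain ⟨K, hK, h2⟩ := orbit_windows' {j : ℚ | ¬ Uniform N c j}
    (fun j : ℚ => (ht j : ℝ)) hf hG (s := 5 / (N : ℝ) + ε) (κ := κ) hs hκ h1 (hp N hN)
  refine ⟨K, hK, ?_⟩
  refine Pool.Agent.N826.IT.Orb.almostAll_mono h2 fun m h k hk j hj => ?_
  by_contra h5
  exact h k hk j h5 hj

end Pool.Agent.Results.MP_cda23d_nt.TotientOrbits
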